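import Pool.Agent.W570.Sym.Final

/-!
# Monotone intrinsic-volume preserving symmetrizations in a hyperplane do not exist

For a hyperplane `H` of `ℝⁿ` and `2 ≤ j ≤ n - 1` there is no monotonic and `V_j`-preserving
symmetrization with respect to `H` which is invariant on `H`-symmetric spherical cylinders or
projection invariant.
-/

namespace Pool.Agent.Results.MP_36ea0a_gt.NoSymmetrization

open MeasureTheory Module Set
open scoped ENNReal
open Pool.Agent.Results.MP_b62b68_gt.NoSymmetrization (E O haarO plane proj volIn HSymm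
  nonemptyCompactConvex convexBodies)

/-- The volume of the unit ball of `ℝᵐ`. -/
noncomputable def ballVolume (m : ℕ) : ℝ≥0∞ := volume (Metric.ball (0 : E m) 1)

/-- The `j`-th intrinsic volume of a compact convex subset of `ℝⁿ`, by Kubota's formula with the
usual constant `(n choose j) κ_n / (κ_j κ_(n-j))`: for `g` distributed according to the Haar
probability measure of `O(n)` the span `plane n j g` of the first `j` columns of `g` is a random
element of the Grassmannian, with the rotation invariant law. -/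
noncomputable def intrinsicVolume (n j : ℕ) (K : Set (E n)) : ℝ≥0∞ :=
  (n.choose j : ℝ≥0∞) * (ballVolume n / (ballVolume j * ballVolume (n - j))) *
    ∫⁻ g, volIn (plane n j g) (proj K (plane n j g)) ∂(haarO n)

/-- `D` is a symmetrization, that is, a map `𝓑 → 𝓑_H`, which is monotonic and `V_j`-preserving. -/
structure IsSymmetrization {n : ℕ} (𝓑 : Set (Set (E n))) (H : Submodule ℝ (E n)) (j : ℕ)
    (D : Set (E n) → Set (E n)) : Prop where
  maps : ∀ K ∈ 𝓑, D K ∈ 𝓑 ∧ HSymm H (D K)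
  monotonic : ∀ K ∈ 𝓑, ∀ L ∈ 𝓑, K ⊆ L → D K ⊆ D L
  preserves : ∀ K ∈ 𝓑, intrinsicVolume n j (D K) = intrinsicVolume n j K

/-- For a hyperplane `H` with unit normal `u` and `c ∈ H`: the cylinder `B + [-t, t] u`, where `B`
is the closed ball of `H` of centre `c` and radius `r`. -/
def cylinder {n : ℕ} (H : Submodule ℝ (E n)) (c : E n) (r t : ℝ) : Set (E n) :=
  {x | ‖H.starProjection x - c‖ ≤ r ∧ ‖x - H.starProjection x‖ ≤ t}

/-- `D` is invariant on the `H`-symmetric spherical cylinders that lie in `𝓑`. -/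
def InvariantOnCylinders {n : ℕ} (𝓑 : Set (Set (E n))) (H : Submodule ℝ (E n))
    (D : Set (E n) → Set (E n)) : Prop :=
  ∀ c ∈ H, ∀ r t : ℝ, 0 < r → 0 ≤ t → cylinder H c r t ∈ 𝓑 →
    D (cylinder H c r t) = cylinder H c r t

/-- `D` is projection invariant: `(D K)|H = K|H` for all `K ∈ 𝓑`. -/
def ProjectionInvariant {n : ℕ} (𝓑 : Set (Set (E n))) (H : Submodule ℝ (E n))
    (D : Set (E n) → Set (E n)) : Prop :=
  ∀ K ∈ 𝓑, proj (D K) H = proj K H

/-- The cylinder is the set `B + [-t, t] u`. -/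
theorem mem_cylinder {n : ℕ} {H : Submodule ℝ (E n)} (hH : finrank ℝ H + 1 = n) {u : E n}
    (hu : u ∈ Hᗮ) (hu1 : ‖u‖ = 1) (c : E n) (r t : ℝ) (x : E n) :
    x ∈ cylinder H c r t ↔ ∃ d ∈ H, ‖d - c‖ ≤ r ∧ ∃ s : ℝ, |s| ≤ t ∧ x = d + s • u := by
  have hperp : finrank ℝ Hᗮ = 1 := by
    have h1 := H.finrank_add_finrank_orthogonal
    rw [finrank_euclideanSpace_fin] at h1
    omega
  constructor
  · rintro ⟨h1, h2⟩
    refine ⟨H.starProjection x, Submodule.starProjection_apply_mem H x, h1, ?_⟩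
    have h3 : x - H.starProjection x ∈ Hᗮ := Submodule.sub_starProjection_mem_orthogonal x
    have hu0 : (⟨u, hu⟩ : Hᗮ) ≠ 0 := by
      intro h0
      have : u = 0 := congrArg Subtype.val h0
      rw [this, norm_zero] at hu1
      exact zero_ne_one hu1
    obtain ⟨s, hs⟩ := (finrank_eq_one_iff_of_nonzero' _ hu0).1 hperp ⟨_, h3⟩
    have hs' : s • u = x - H.starProjection x := congrArg Subtype.val hs
    refine ⟨s, ?_, ?_⟩
    · rw [← hs', norm_smul, hu1, mul_one] at h2
      exact h2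
    · rw [hs']
      abel
  · rintro ⟨d, hd, h1, s, hs, rfl⟩
    have h2 : H.starProjection (d + s • u) = d := by
      rw [map_add, map_smul, Submodule.starProjection_eq_self_iff.2 hd,
        (Submodule.starProjection_apply_eq_zero_iff H).2 hu, smul_zero, add_zero]
    refine ⟨?_, ?_⟩
    · rw [h2]
      exact h1
    · rw [h2, add_sub_cancel_left, norm_smul, hu1, mul_one]
      exact hs

theorem ballVolume_pos (m : ℕ) : ballVolume m ≠ 0 :=
  (Metric.measure_ball_pos volume _ one_pos).ne'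

theorem ballVolume_lt_top (m : ℕ) : ballVolume m ≠ ∞ := measure_ball_lt_top.ne

theorem V_eq_of_eq {n j : ℕ} (hj : j ≤ n) {K L : Set (E n)}
    (h : intrinsicVolume n j K = intrinsicVolume n j L) :
    Pool.Agent.Results.MP_b62b68_gt.NoSymmetrization.V n j K =
      Pool.Agent.Results.MP_b62b68_gt.NoSymmetrization.V n j L := by
  unfold intrinsicVolume at h
  unfold Pool.Agent.Results.MP_b62b68_gt.NoSymmetrization.V
  have h0 : (n.choose j : ℝ≥0∞) * (ballVolume n / (ballVolume j * ballVolume (n - j))) ≠ 0 := by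
    refine mul_ne_zero (by exact_mod_cast (Nat.choose_pos hj).ne') ?_
    rw [Ne, ENNReal.div_eq_zero_iff]
    push Not
    exact ⟨ballVolume_pos n, ENNReal.mul_ne_top (ballVolume_lt_top _) (ballVolume_lt_top _)⟩
  have ht : (n.choose j : ℝ≥0∞) * (ballVolume n / (ballVolume j * ballVolume (n - j))) ≠ ∞ := by
    refine ENNReal.mul_ne_top (ENNReal.natCast_ne_top _) ?_
    exact ENNReal.div_ne_top (ballVolume_lt_top n) (mul_ne_zero (ballVolume_pos _)
      (ballVolume_pos _))
  rw [(ENNReal.mul_right_inj h0 ht).1 h]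

open Pool.Agent.W570.Sym in
/-- **No symmetrization.** -/
theorem result (n j : ℕ) (hj : 2 ≤ j) (hjn : j + 1 ≤ n) (H : Submodule ℝ (E n))
    (hH : finrank ℝ H + 1 = n) (𝓑 : Set (Set (E n)))
    (h𝓑 : 𝓑 = nonemptyCompactConvex n ∨ 𝓑 = convexBodies n) :
    ¬ ∃ D : Set (E n) → Set (E n), IsSymmetrization 𝓑 H j D ∧
      (InvariantOnCylinders 𝓑 H D ∨ ProjectionInvariant 𝓑 H D) := by
  rintro ⟨D, hD, hcp⟩
  obtain ⟨k, rfl⟩ : ∃ k, j = k + 1 + 1 := ⟨j - 2, by omega⟩
  have hbody : ∀ K ∈ convexBodies n, K ∈ 𝓑 := by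
    intro K hK
    rcases h𝓑 with rfl | rfl
    · exact ⟨hK.1, hK.2.1, hK.2.2.mono interior_subset⟩
    · exact hK
  have hcc : ∀ K ∈ 𝓑, IsCompact K ∧ Convex ℝ K := by
    intro K hK
    rcases h𝓑 with rfl | rfl
    · exact ⟨hK.1, hK.2.1⟩
    · exact ⟨hK.1, hK.2.1⟩
  have hmono : ∀ K ∈ convexBodies n, ∀ L ∈ convexBodies n, K ⊆ L → D K ⊆ D L :=
    fun K hK L hL => hD.monotonic K (hbody K hK) L (hbody L hL)
  have hproj : ∀ K ∈ convexBodies n, ∀ x ∈ D K, ∃ y ∈ K,
      H.starProjection y = H.starProjection x := by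
    rcases hcp with hc | hp
    · intro K hK x hx
      refine proj_of_cyl H D hmono ?_ K hK x hx
      intro c hcH r t hr ht
      exact hc c hcH r t hr ht.le (hbody _ (cyl_body H hcH hr ht))
    · intro K hK x hx
      have h1 : H.starProjection x ∈ proj K H := by
        rw [← hp K (hbody K hK)]
        exact ⟨x, hx, rfl⟩
      obtain ⟨y, hy, hyx⟩ := h1
      exact ⟨y, hy, hyx⟩
  obtain ⟨D', hD'⟩ := exists_ext2 (j := k + 1 + 1) (by omega) H D
    (fun K hK => ⟨(hcc _ (hD.maps _ (hbody K hK)).1).1, (hcc _ (hD.maps _ (hbody K hK)).1).2,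
      (hD.maps _ (hbody K hK)).2⟩) hmono
    (fun K hK => V_eq_of_eq (by omega) (hD.preserves K (hbody K hK))) hproj
  exact no_ext2 (by omega) H hH (by omega) hD'

end Pool.Agent.Results.MP_36ea0a_gt.NoSymmetrization
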